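import Pool.Agent.Lib_MP_7e32a6_co.SlopeExists

set_option autoImplicit false

open Filter Topology

/-!
# The growth rate of minimum `k`-fold hyperplane covers of triangular grids exists, and bounds them
-/

namespace Pool.Agent.Results.MP_7e32a6_co.LimitExists

open TriGrid

/-- For all `d ≥ 1` and all `k`, the limit `C` of `f(n,d,k)/n` exists, and
`f(n,d,k) ≤ C (n + d)` for all `n`. -/
theorem result (d k : ℕ) (hd : 1 ≤ d) :
    ∃ C : ℝ, Tendsto (fun n : ℕ => (f n d k : ℝ) / n) atTop (𝓝 C) ∧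
      ∀ n : ℕ, (f n d k : ℝ) ≤ C * (n + d) := by
  obtain ⟨C, -, h1, h2⟩ := slope_exists d k hd
  exact ⟨C, h1, h2⟩

end Pool.Agent.Results.MP_7e32a6_co.LimitExists
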