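import Pool.Agent.Lib_MP_7e32a6_co.Plane

set_option autoImplicit false

/-!
# The slopes of minimum `k`-fold line covers of the triangular grid in the plane, for all `k`
-/

namespace Pool.Agent.Results.MP_7e32a6_co.PlaneSlope

open TriGrid

/-- For every `k ≥ 1`, with `m = ⌊(2k+1)/3⌋` and `C = 3m(m+1)/(2(3m+1-k))`, one has
`C n ≤ f(n,2,k) ≤ C (n+2)` for all `n`; so `f(·,2,k)` has slope `C`. -/
theorem result (k m : ℕ) (hk : 1 ≤ k) (hm : m = (2 * k + 1) / 3) (C : ℝ)
    (hC : C = 3 * m * (m + 1) / (2 * (3 * m + 1 - k))) (n : ℕ) :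
    C * n ≤ f n 2 k ∧ (f n 2 k : ℝ) ≤ C * (n + 2) := by
  have h : C = (TriGrid.slope k : ℝ) := by
    rw [hC, hm]
    simp only [TriGrid.slope]
    push_cast
    ring
  rw [h]
  exact plane k hk n

end Pool.Agent.Results.MP_7e32a6_co.PlaneSlope
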